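import Pool.Agent.TH534.NG

set_option autoImplicit false

namespace Pool.Agent.Results.MP_4101c8_co.ProductFails

open Pool.Agent.TH534.NG

/-- For every `n ≥ 201` there is a connected graph `G` of order `n` with `δ*(G) = 4` and
`γ_t(G) γ_t(complement of G) > 4n/5`. -/
theorem result : ∀ n : ℕ, 201 ≤ n → ∃ (V : Type) (_ : Fintype V) (G : SimpleGraph V),
    Fintype.card V = n ∧ G.Connected ∧ deltaStar G = 4 ∧
      4 * (n : ℝ) / 5 < (gammaT G : ℝ) * (gammaT Gᶜ : ℝ) := by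
  intro n hn
  obtain ⟨V, hV, G, hc, h1, h2, h3, h4⟩ :=
    exists_graph ((n - 5) / 14) (n - 14 * ((n - 5) / 14)) (by omega) (by omega) (by omega)
  refine ⟨V, hV, G, by omega, h1, h2, ?_⟩
  have h5 : 4 * n < 10 * gammaT Gᶜ := by omega
  have h6 : 10 * gammaT Gᶜ ≤ 5 * (gammaT G * gammaT Gᶜ) := by nlinarith
  have h7 : 4 * n < 5 * (gammaT G * gammaT Gᶜ) := by omega
  have h8 : 4 * (n : ℝ) < 5 * ((gammaT G : ℝ) * (gammaT Gᶜ : ℝ)) := by exact_mod_cast h7
  linarith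

end Pool.Agent.Results.MP_4101c8_co.ProductFails
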