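import Pool.Agent.TH534.NG

set_option autoImplicit false

namespace Pool.Agent.Results.MP_4101c8_co.SumFails

open Pool.Agent.TH534.NG

/-- For every `n ≥ 201` there is a connected graph `G` of order `n` with `δ*(G) = 4` and
`γ_t(G) + γ_t(complement of G) > 2n/5 + 2`. -/
theorem result : ∀ n : ℕ, 201 ≤ n → ∃ (V : Type) (_ : Fintype V) (G : SimpleGraph V),
    Fintype.card V = n ∧ G.Connected ∧ deltaStar G = 4 ∧
      (2 * (n : ℝ) / 5 + 2) < (gammaT G : ℝ) + (gammaT Gᶜ : ℝ) := by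
  intro n hn
  obtain ⟨V, hV, G, hc, h1, h2, h3, h4⟩ :=
    exists_graph ((n - 5) / 14) (n - 14 * ((n - 5) / 14)) (by omega) (by omega) (by omega)
  refine ⟨V, hV, G, by omega, h1, h2, ?_⟩
  have h5 : 2 * n + 10 < 5 * (gammaT G + gammaT Gᶜ) := by omega
  have h6 : (2 * (n : ℝ) + 10) < 5 * ((gammaT G : ℝ) + (gammaT Gᶜ : ℝ)) := by exact_mod_cast h5
  linarith

end Pool.Agent.Results.MP_4101c8_co.SumFails
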